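import Mathlib

open Finset

namespace Pool.Agent.H9Disc

section Abstract
variable {V : Type*} [AddCommGroup V] [Fintype V]

/-- autocorrelation of g -/
noncomputable def A (g : V → ℝ) (u : V) : ℝ := ∑ a, g a * g (a + u)

lemma A_neg (g : V → ℝ) (u : V) : A g (-u) = A g u := by
  unfold A
  rw [← Equiv.sum_comp (Equiv.addRight u)]
  refine sum_congr rfl fun a _ => ?_
  simp [mul_comm]

/-- sum of g over the progression a, a+e, ..., a+(m-1)e -/
noncomputable def S (g : V → ℝ) (m : ℕ) (e a : V) : ℝ := ∑ i ∈ range m, g (a + i • e)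

lemma sum_S_mul (g : V → ℝ) (m n : ℕ) (e c : V) :
    ∑ a, S g m e a * S g n e (a + c) =
      ∑ i ∈ range m, ∑ j ∈ range n, A g (c + (j • e - i • e)) := by
  unfold S
  simp_rw [sum_mul_sum]
  rw [sum_comm]
  refine sum_congr rfl fun i _ => ?_
  rw [sum_comm]
  refine sum_congr rfl fun j _ => ?_
  unfold A
  conv_rhs => rw [← Equiv.sum_comp (Equiv.addRight (i • e))]
  refine sum_congr rfl fun a _ => ?_
  simp only [Equiv.coe_addRight]
  congr 2
  abel

lemma double_sum (F : ℕ → ℕ → ℝ) (c : ℝ) (hs : ∀ i j, F i j = F j i) (hd : ∀ i, F i i = c)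
    (D : ℕ) : ∑ i ∈ range D, ∑ j ∈ range D, F i j =
      D * c + 2 * ∑ v ∈ range D, ∑ u ∈ range v, F u v := by
  induction D with
  | zero => simp
  | succ D ih =>
    rw [sum_range_succ, sum_range_succ (fun v => ∑ u ∈ range v, F u v)]
    have : ∑ x ∈ range D, ∑ j ∈ range (D + 1), F x j =
        ∑ x ∈ range D, ∑ j ∈ range D, F x j + ∑ x ∈ range D, F x D := by
      rw [← sum_add_distrib]
      exact sum_congr rfl fun x _ => by rw [sum_range_succ]
    rw [this, ih, sum_range_succ, hd]
    have h2 : ∑ x ∈ range D, F D x = ∑ x ∈ range D, F x D :=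
      sum_congr rfl fun x _ => hs _ _
    rw [h2]
    push_cast
    ring

/-- weighted sum over differences -/
noncomputable def avg (D : ℕ) (F : ℕ → ℝ) : ℝ := ∑ v ∈ range D, ∑ u ∈ range v, F (v - u)

lemma avg_le {D : ℕ} {F G : ℕ → ℝ} (h : ∀ d, 1 ≤ d → d < D → F d ≤ G d) : avg D F ≤ avg D G := by
  unfold avg
  refine sum_le_sum fun v hv => sum_le_sum fun u hu => ?_
  rw [mem_range] at hv hu
  exact h _ (by omega) (by omega)

lemma avg_add (D : ℕ) (F G : ℕ → ℝ) : avg D (fun d => F d + G d) = avg D F + avg D G := by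
  unfold avg; simp [sum_add_distrib]

lemma avg_sub (D : ℕ) (F G : ℕ → ℝ) : avg D (fun d => F d - G d) = avg D F - avg D G := by
  unfold avg; simp [sum_sub_distrib]

lemma avg_mul (D : ℕ) (c : ℝ) (F : ℕ → ℝ) : avg D (fun d => c * F d) = c * avg D F := by
  unfold avg; simp [mul_sum]

lemma avg_sum {ι : Type*} (s : Finset ι) (D : ℕ) (F : ι → ℕ → ℝ) :
    avg D (fun d => ∑ i ∈ s, F i d) = ∑ i ∈ s, avg D (F i) := by
  unfold avg
  rw [sum_comm]
  refine sum_congr rfl fun v _ => ?_
  rw [sum_comm]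

/-- total weight -/
noncomputable def T (D : ℕ) : ℝ := (D : ℝ) * (D - 1) / 2

lemma avg_const (D : ℕ) (c : ℝ) : avg D (fun _ => c) = T D * c := by
  unfold avg T
  induction D with
  | zero => simp
  | succ D ih =>
    rw [sum_range_succ, ih]
    simp
    ring

/-- averaged autocorrelation -/
noncomputable def r (g : V → ℝ) (D : ℕ) (x : V) : ℝ := avg D (fun d => A g (d • x))

lemma r_neg (g : V → ℝ) (D : ℕ) (x : V) : r g D (-x) = r g D x := by
  unfold r
  congr 1
  funext d
  rw [smul_neg, A_neg]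

lemma r_zero (g : V → ℝ) (D : ℕ) : r g D 0 = T D * A g 0 := by
  unfold r
  simp [avg_const]

lemma fejer (g : V → ℝ) (D : ℕ) (x : V) : -((D : ℝ) * A g 0 / 2) ≤ r g D x := by
  have h0 : 0 ≤ ∑ a, S g D x a * S g D x (a + 0) :=
    sum_nonneg fun a _ => by rw [add_zero]; exact mul_self_nonneg _
  rw [sum_S_mul] at h0
  have h1 := double_sum (fun i j => A g (0 + (j • x - i • x))) (A g 0)
    (fun i j => by
      show A g (0 + (j • x - i • x)) = A g (0 + (i • x - j • x))
      rw [zero_add, zero_add, ← A_neg, neg_sub]) (fun i => by simp) D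
  rw [h1] at h0
  have h2 : ∑ v ∈ range D, ∑ u ∈ range v, A g (0 + (v • x - u • x)) = r g D x := by
    unfold r avg
    refine sum_congr rfl fun v hv => sum_congr rfl fun u hu => ?_
    rw [mem_range] at hu
    show A g (0 + (v • x - u • x)) = A g ((v - u) • x)
    rw [zero_add, sub_nsmul _ (le_of_lt hu), sub_eq_add_neg]
  linarith

lemma avg_S_mul (g : V → ℝ) (D m n : ℕ) (x c : V) :
    avg D (fun d => ∑ a, S g m (d • x) a * S g n (d • x) (a + d • c)) =
      ∑ i ∈ range m, ∑ j ∈ range n, r g D (c + (j • x - i • x)) := by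
  simp_rw [sum_S_mul]
  rw [avg_sum]
  refine sum_congr rfl fun i _ => ?_
  rw [avg_sum]
  refine sum_congr rfl fun j _ => ?_
  unfold r
  congr 1
  funext d
  congr 1
  rw [smul_add, smul_sub, smul_comm d j x, smul_comm d i x]

/-- lower bound for the averaged second moment -/
lemma avg_sq_ge (g : V → ℝ) (D m : ℕ) (x : V) (hA : 0 ≤ A g 0) :
    m * (T D * A g 0) - (m : ℝ) ^ 2 * (D * A g 0 / 2) ≤
      avg D (fun d => ∑ a, S g m (d • x) a ^ 2) := by
  have h := avg_S_mul g D m m x 0
  simp only [smul_zero, add_zero, zero_add, ← pow_two] at h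
  rw [h]
  have h1 : ∀ i ∈ range m, ∀ j ∈ range m,
      (if i = j then T D * A g 0 else 0) - D * A g 0 / 2 ≤ r g D (j • x - i • x) := by
    intro i _ j _
    by_cases hij : i = j
    · subst hij
      rw [if_pos rfl, sub_self, r_zero]
      have : 0 ≤ (D : ℝ) * A g 0 / 2 := by positivity
      linarith
    · rw [if_neg hij, zero_sub]
      exact fejer g D _
  have h2 : ∑ i ∈ range m, ∑ j ∈ range m,
      ((if i = j then T D * A g 0 else 0) - D * A g 0 / 2) =
      m * (T D * A g 0) - (m : ℝ) ^ 2 * (D * A g 0 / 2) := by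
    simp only [sum_sub_distrib, sum_const, card_range, nsmul_eq_mul]
    have h3 : ∑ i ∈ range m, ∑ j ∈ range m, (if i = j then T D * A g 0 else 0) =
        m * (T D * A g 0) := by
      have : ∀ i ∈ range m, ∑ j ∈ range m, (if i = j then T D * A g 0 else 0) = T D * A g 0 := by
        intro i hi
        rw [sum_ite_eq]
        simp [mem_range.1 hi]
      rw [sum_congr rfl this]
      simp
    rw [h3]
    ring
  rw [← h2]
  exact sum_le_sum fun i hi => sum_le_sum fun j hj => h1 i hi j hj

/-- upper bound for r from the averaged second moment -/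
lemma r_le (g : V → ℝ) (D k : ℕ) (x : V) (hA : 0 ≤ A g 0) (hk : 1 ≤ k) :
    2 * ((k : ℝ) - 1) * r g D x ≤ avg D (fun d => ∑ a, S g k (d • x) a ^ 2)
      - k * (T D * A g 0) + (k : ℝ) ^ 2 * (D * A g 0 / 2) := by
  have h := avg_S_mul g D k k x 0
  simp only [smul_zero, add_zero, zero_add, ← pow_two] at h
  rw [h]
  have hB : 0 ≤ (D : ℝ) * A g 0 / 2 := by positivity
  set B := (D : ℝ) * A g 0 / 2 with hBdef
  have h1 : ∀ i ∈ range k, ∀ j ∈ range k,
      (if i = j then T D * A g 0 else 0) + (if j = i + 1 then r g D x else 0)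
        + (if i = j + 1 then r g D x else 0) - B ≤ r g D (j • x - i • x) := by
    intro i _ j _
    by_cases hij : i = j
    · subst hij
      rw [if_pos rfl, if_neg (by omega), sub_self, r_zero]
      linarith
    · rw [if_neg hij, zero_add]
      by_cases h2 : j = i + 1
      · rw [if_pos h2, if_neg (by omega), h2, add_nsmul, one_nsmul, add_sub_cancel_left]
        linarith
      · by_cases h3 : i = j + 1
        · rw [if_neg h2, if_pos h3, h3, add_nsmul, one_nsmul]
          have : j • x - (j • x + x) = -x := by abel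
          rw [this, r_neg]
          linarith
        · rw [if_neg h2, if_neg h3]
          have := fejer g D (j • x - i • x)
          linarith
  have h4 : ∑ i ∈ range k, ∑ j ∈ range k,
      ((if i = j then T D * A g 0 else 0) + (if j = i + 1 then r g D x else 0)
        + (if i = j + 1 then r g D x else 0) - B) =
      k * (T D * A g 0) + 2 * ((k : ℝ) - 1) * r g D x - (k : ℝ) ^ 2 * B := by
    simp only [sum_sub_distrib, sum_add_distrib, sum_const, card_range, nsmul_eq_mul]
    have h3 : ∑ i ∈ range k, ∑ j ∈ range k, (if i = j then T D * A g 0 else 0) =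
        k * (T D * A g 0) := by
      have : ∀ i ∈ range k, ∑ j ∈ range k, (if i = j then T D * A g 0 else 0) = T D * A g 0 := by
        intro i hi
        rw [sum_ite_eq]
        simp [mem_range.1 hi]
      rw [sum_congr rfl this]
      simp
    have h5 : ∑ i ∈ range k, ∑ j ∈ range k, (if j = i + 1 then r g D x else 0) =
        ((k : ℝ) - 1) * r g D x := by
      have : ∀ i ∈ range k, ∑ j ∈ range k, (if j = i + 1 then r g D x else 0) =
          if i + 1 < k then r g D x else 0 := by
        intro i hi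
        rw [sum_ite_eq']
        simp
      rw [sum_congr rfl this]
      obtain ⟨q, rfl⟩ : ∃ q, k = q + 1 := ⟨k - 1, by omega⟩
      rw [sum_range_succ, if_neg (by omega), add_zero]
      rw [sum_congr rfl (fun i hi => if_pos (by rw [mem_range] at hi; omega))]
      simp
    have h6 : ∑ i ∈ range k, ∑ j ∈ range k, (if i = j + 1 then r g D x else 0) =
        ((k : ℝ) - 1) * r g D x := by
      rw [sum_comm]
      exact h5
    rw [h3, h5, h6]
    ring
  have h7 := sum_le_sum fun i hi => sum_le_sum fun j hj => h1 i hi j hj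
  rw [h4] at h7
  linarith

/-- averaged second moment of the increments -/
lemma avg_delta_ge (g : V → ℝ) (D m k : ℕ) (x : V) (hA : 0 ≤ A g 0) (hmk : m ≤ k) (R : ℝ)
    (hR : ∀ h, 1 ≤ h → h ≤ 2 * k → r g D (h • x) ≤ R) :
    2 * (m * (T D * A g 0) - (m : ℝ) ^ 2 * (D * A g 0 / 2)) - 2 * (m : ℝ) ^ 2 * R ≤
      avg D (fun d => ∑ a, (S g m (d • x) (a + d • (k • x)) - S g m (d • x) a) ^ 2) := by
  have e1 : ∀ d : ℕ, ∑ a, (S g m (d • x) (a + d • (k • x)) - S g m (d • x) a) ^ 2 =
      2 * ∑ a, S g m (d • x) a ^ 2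
        - 2 * ∑ a, S g m (d • x) a * S g m (d • x) (a + d • (k • x)) := by
    intro d
    have e2 : ∑ a, S g m (d • x) (a + d • (k • x)) ^ 2 = ∑ a, S g m (d • x) a ^ 2 :=
      Equiv.sum_comp (Equiv.addRight (d • (k • x))) (fun a => S g m (d • x) a ^ 2)
    rw [two_mul, ← sub_add_cancel (∑ a, S g m (d • x) a ^ 2 + ∑ a, S g m (d • x) a ^ 2)
      (∑ a, S g m (d • x) (a + d • (k • x)) ^ 2), e2, add_sub_cancel_right, mul_sum]
    nth_rewrite 2 [← e2]
    rw [← sum_add_distrib, ← sum_sub_distrib]
    refine sum_congr rfl fun a _ => ?_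
    ring
  simp_rw [e1]
  rw [avg_sub, avg_mul, avg_mul, avg_S_mul]
  have h1 := avg_sq_ge g D m x hA
  have h2 : ∑ i ∈ range m, ∑ j ∈ range m, r g D (k • x + (j • x - i • x)) ≤ (m : ℝ) ^ 2 * R := by
    have h3 : ∀ i ∈ range m, ∀ j ∈ range m, r g D (k • x + (j • x - i • x)) ≤ R := by
      intro i hi j hj
      rw [mem_range] at hi hj
      have : k • x + (j • x - i • x) = (k + j - i) • x := by
        rw [sub_nsmul _ (by omega), add_nsmul]
        abel
      rw [this]
      exact hR _ (by omega) (by omega)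
    calc _ ≤ ∑ i ∈ range m, ∑ j ∈ range m, R := sum_le_sum fun i hi => sum_le_sum fun j hj => h3 i hi j hj
      _ = (m : ℝ) ^ 2 * R := by simp; ring
  linarith

end Abstract

end Pool.Agent.H9Disc
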