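import Pool.Agent.H9Disc.Abs

open Finset

namespace Pool.Agent.H9Disc

/-- f placed on the cyclic group of order N+1 -/
noncomputable def g (f : ℕ → ℝ) (N : ℕ) : ZMod (N + 1) → ℝ :=
  fun z => if z = 0 then 0 else f z.val

lemma g_sq_le (f : ℕ → ℝ) (N : ℕ) (hf : ∀ n, f n ^ 2 = 1) (z : ZMod (N + 1)) : |g f N z| ≤ 1 := by
  unfold g
  split_ifs
  · simp
  · rw [← sq_le_one_iff_abs_le_one, hf]

lemma A_g_zero (f : ℕ → ℝ) (N : ℕ) (hf : ∀ n, f n ^ 2 = 1) : A (g f N) 0 = N := by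
  unfold A g
  have : ∀ a : ZMod (N + 1), (if a = 0 then 0 else f a.val) *
      (if a + 0 = 0 then 0 else f (a + 0).val) = 1 - if a = 0 then (1 : ℝ) else 0 := by
    intro a
    rw [add_zero]
    split_ifs
    · simp
    · rw [← pow_two, hf]; simp
  rw [sum_congr rfl fun a _ => this a, sum_sub_distrib]
  simp [ZMod.card]

lemma card_bad (N K : ℕ) :
    ((univ.filter fun z : ZMod (N + 1) => ¬(1 ≤ z.val ∧ z.val + K ≤ N)).card : ℝ) ≤ K + 1 := by
  have h : (univ.filter fun z : ZMod (N + 1) => ¬(1 ≤ z.val ∧ z.val + K ≤ N)).card ≤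
      (insert 0 (Ioc (N - K) N)).card := by
    apply card_le_card_of_injOn (fun z => z.val)
    · intro z hz
      simp only [coe_filter, mem_univ, true_and, Set.mem_ofPred_eq] at hz
      have := ZMod.val_lt z
      simp only [coe_insert, coe_Ioc, Set.mem_insert_iff, Set.mem_Ioc]
      omega
    · intro a _ b _ hab
      exact ZMod.val_injective _ hab
  have h2 := card_insert_le 0 (Ioc (N - K) N)
  rw [Nat.card_Ioc] at h2
  have h3 : (univ.filter fun z : ZMod (N + 1) => ¬(1 ≤ z.val ∧ z.val + K ≤ N)).card ≤ K + 1 := by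
    omega
  exact_mod_cast h3

lemma card_good (N K : ℕ) :
    ((univ.filter fun z : ZMod (N + 1) => (1 ≤ z.val ∧ z.val + K ≤ N)).card : ℝ) ≤ N := by
  have h : (univ.filter fun z : ZMod (N + 1) => (1 ≤ z.val ∧ z.val + K ≤ N)).card ≤
      (Icc 1 N).card := by
    apply card_le_card_of_injOn (fun z => z.val)
    · intro z hz
      simp only [coe_filter, mem_univ, true_and, Set.mem_ofPred_eq] at hz
      simp only [coe_Icc, Set.mem_Icc]
      omega
    · intro a _ b _ hab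
      exact ZMod.val_injective _ hab
  rw [Nat.card_Icc] at h
  exact_mod_cast h

lemma val_shift (N : ℕ) (z : ZMod (N + 1)) (j : ℕ) (h : z.val + j ≤ N) :
    (z + (j : ZMod (N + 1))).val = z.val + j := by
  conv_lhs => rw [← ZMod.natCast_zmod_val z, ← Nat.cast_add, ZMod.val_natCast]
  exact Nat.mod_eq_of_lt (by omega)

lemma S_good (f : ℕ → ℝ) (N k d : ℕ) (z : ZMod (N + 1)) (h1 : 1 ≤ z.val)
    (h2 : z.val + k * d ≤ N) :
    S (g f N) k ((d : ZMod (N + 1))) z = ∑ i ∈ range k, f (z.val + i * d) := by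
  unfold S
  refine sum_congr rfl fun i hi => ?_
  rw [mem_range] at hi
  have hid : i * d ≤ k * d := Nat.mul_le_mul_right d hi.le
  have h3 : z + i • (d : ZMod (N + 1)) = z + ((i * d : ℕ) : ZMod (N + 1)) := by
    rw [nsmul_eq_mul]; push_cast; rfl
  rw [h3]
  have h4 := val_shift N z (i * d) (by omega)
  unfold g
  rw [if_neg, h4]
  intro h0
  rw [h0, ZMod.val_zero] at h4
  omega

lemma S_abs_le {V : Type*} [AddCommGroup V] (g : V → ℝ) (hg : ∀ z, |g z| ≤ 1) (m : ℕ) (e z : V) :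
    |∑ i ∈ range m, g (z + i • e)| ≤ m := by
  calc _ ≤ ∑ i ∈ range m, |g (z + i • e)| := abs_sum_le_sum_abs _ _
    _ ≤ ∑ i ∈ range m, (1 : ℝ) := sum_le_sum fun i _ => hg _
    _ = m := by simp

lemma S_add {V : Type*} [AddCommGroup V] [Fintype V] (g : V → ℝ) (m n : ℕ) (e a : V) :
    S g (m + n) e a = S g m e a + S g n e (a + m • e) := by
  unfold S
  rw [sum_range_add]
  congr 1
  refine sum_congr rfl fun i _ => ?_
  rw [add_nsmul, add_assoc]

lemma S_shift {V : Type*} [AddCommGroup V] [Fintype V] (g : V → ℝ) (m k : ℕ) (e a : V) :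
    S g m e (a + k • e) - S g m e a = S g k e (a + m • e) - S g k e a := by
  have h1 := S_add g m k e a
  have h2 := S_add g k m e a
  rw [add_comm k m] at h2
  linarith

lemma phi_small (I : ℕ) (y : ℝ) (hy : 0 ≤ y) :
    ∑ i ∈ range (I + 1), (1 / 2 : ℝ) ^ i * (min y (2 ^ (i + 1))) ^ 2 ≤ 2 * y ^ 2 := by
  have h1 : ∀ i ∈ range (I + 1), (1 / 2 : ℝ) ^ i * (min y (2 ^ (i + 1))) ^ 2 ≤
      (1 / 2 : ℝ) ^ i * y ^ 2 := by
    intro i _
    have : (min y (2 ^ (i + 1))) ^ 2 ≤ y ^ 2 :=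
      pow_le_pow_left₀ (le_min hy (by positivity)) (min_le_left _ _) 2
    exact mul_le_mul_of_nonneg_left this (by positivity)
  refine (sum_le_sum h1).trans ?_
  rw [← sum_mul]
  have h2 : ∑ i ∈ range (I + 1), (1 / 2 : ℝ) ^ i ≤ 2 := by
    rw [geom_sum_eq (by norm_num), div_le_iff_of_neg (by norm_num)]
    have : (0 : ℝ) ≤ (1 / 2) ^ (I + 1) := by positivity
    linarith
  exact mul_le_mul_of_nonneg_right h2 (by positivity)

lemma phi_large (I : ℕ) : ∀ y : ℝ, 1 ≤ y →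
    ∑ i ∈ range (I + 1), (1 / 2 : ℝ) ^ i * (min y (2 ^ (i + 1))) ^ 2 ≤ 8 * y - 4 := by
  induction I with
  | zero =>
    intro y hy
    by_cases h : y ≤ 2
    · refine (phi_small 0 y (by linarith)).trans ?_
      nlinarith
    · push Not at h
      simp only [zero_add, range_one, sum_singleton, pow_zero, pow_one, one_mul]
      rw [min_eq_right h.le]
      linarith
  | succ I ih =>
    intro y hy
    by_cases h : y ≤ 2
    · refine (phi_small (I + 1) y (by linarith)).trans ?_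
      nlinarith
    · push Not at h
      rw [sum_range_succ']
      have h1 := ih (y / 2) (by linarith)
      have h2 : ∑ i ∈ range (I + 1), (1 / 2 : ℝ) ^ (i + 1) * (min y (2 ^ (i + 1 + 1))) ^ 2 =
          2 * ∑ i ∈ range (I + 1), (1 / 2 : ℝ) ^ i * (min (y / 2) (2 ^ (i + 1))) ^ 2 := by
        rw [mul_sum]
        refine sum_congr rfl fun i _ => ?_
        have h3 : min y (2 ^ (i + 1 + 1)) = 2 * min (y / 2) (2 ^ (i + 1)) := by
          rw [mul_min_of_nonneg _ _ (by norm_num : (0 : ℝ) ≤ 2)]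
          congr 1 <;> ring
        rw [h3]
        ring
      rw [h2]
      simp only [pow_zero, zero_add, pow_one, one_mul]
      rw [min_eq_right h.le]
      linarith

lemma phi_le (I : ℕ) (y : ℝ) (hy : 0 ≤ y) :
    ∑ i ∈ range (I + 1), (1 / 2 : ℝ) ^ i * (min y (2 ^ (i + 1))) ^ 2 ≤ 8 * y := by
  by_cases h : y ≤ 1
  · refine (phi_small I y hy).trans ?_
    nlinarith
  · push Not at h
    have := phi_large I y h.le
    linarith

/-- the discrepancy hypothesis -/
def Bdd (f : ℕ → ℝ) (N k : ℕ) (l : ℝ) : Prop :=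
  ∀ a d : ℕ, 1 ≤ a → 1 ≤ d → a + (k - 1) * d ≤ N → |∑ i ∈ range k, f (a + i * d)| ≤ l

/-- basic bound for all differences -/
lemma sum_sq_le (f : ℕ → ℝ) (N k : ℕ) (l : ℝ) (hf : ∀ n, f n ^ 2 = 1) (hl : 0 ≤ l)
    (hB : Bdd f N k l) (d : ℕ) (hd : 1 ≤ d) :
    ∑ z, S (g f N) k ((d : ZMod (N + 1))) z ^ 2 ≤ N * l ^ 2 + (k : ℝ) ^ 2 * ((k * d : ℕ) + 1) := by
  classical
  have h1 : ∀ z : ZMod (N + 1), S (g f N) k ((d : ZMod (N + 1))) z ^ 2 ≤
      (if (1 ≤ z.val ∧ z.val + k * d ≤ N) then l ^ 2 else 0) +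
      (if ¬ (1 ≤ z.val ∧ z.val + k * d ≤ N) then (k : ℝ) ^ 2 else 0) := by
    intro z
    by_cases hz : 1 ≤ z.val ∧ z.val + k * d ≤ N
    · rw [if_pos hz, if_neg (not_not.2 hz), add_zero, S_good f N k d z hz.1 hz.2]
      have h2 : z.val + (k - 1) * d ≤ N := by
        have : (k - 1) * d ≤ k * d := Nat.mul_le_mul_right d (by omega)
        omega
      have h3 := hB z.val d hz.1 hd h2
      rw [← sq_abs]
      exact pow_le_pow_left₀ (abs_nonneg _) h3 2
    · rw [if_neg hz, if_pos hz, zero_add, ← sq_abs]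
      exact pow_le_pow_left₀ (abs_nonneg _) (S_abs_le _ (g_sq_le f N hf) _ _ _) 2
  refine (sum_le_sum fun z _ => h1 z).trans ?_
  rw [sum_add_distrib, ← sum_filter, ← sum_filter, sum_const, sum_const, nsmul_eq_mul, nsmul_eq_mul]
  have h4 := card_good N (k * d)
  have h5 := card_bad N (k * d)
  have h6 : 0 ≤ l ^ 2 := sq_nonneg _
  have h7 : 0 ≤ (k : ℝ) ^ 2 := sq_nonneg _
  nlinarith [mul_le_mul_of_nonneg_right h4 h6, mul_le_mul_of_nonneg_right h5 h7]

/-- the deficit -/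
noncomputable def Y (f : ℕ → ℝ) (N k : ℕ) (l : ℝ) (d : ℕ) (z : ZMod (N + 1)) : ℝ :=
  if (1 ≤ z.val ∧ z.val + k * d ≤ N) then l - |S (g f N) k ((d : ZMod (N + 1))) z| else 0

lemma Y_nonneg (f : ℕ → ℝ) (N k : ℕ) (l : ℝ) (hB : Bdd f N k l) (d : ℕ) (hd : 1 ≤ d)
    (z : ZMod (N + 1)) : 0 ≤ Y f N k l d z := by
  unfold Y
  split_ifs with hz
  · rw [S_good f N k d z hz.1 hz.2]
    have h2 : z.val + (k - 1) * d ≤ N := by
      have : (k - 1) * d ≤ k * d := Nat.mul_le_mul_right d (by omega)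
      omega
    have h3 := hB z.val d hz.1 hd h2
    linarith
  · exact le_rfl

/-- refined second moment bound -/
lemma sum_sq_le' (f : ℕ → ℝ) (N k : ℕ) (l : ℝ) (hf : ∀ n, f n ^ 2 = 1) (hl : 0 ≤ l)
    (hB : Bdd f N k l) (d : ℕ) (hd : 1 ≤ d) :
    ∑ z, S (g f N) k ((d : ZMod (N + 1))) z ^ 2 + l * ∑ z, Y f N k l d z ≤
      N * l ^ 2 + (k : ℝ) ^ 2 * ((k * d : ℕ) + 1) := by
  classical
  rw [mul_sum, ← sum_add_distrib]
  have h1 : ∀ z : ZMod (N + 1), S (g f N) k ((d : ZMod (N + 1))) z ^ 2 + l * Y f N k l d z ≤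
      (if (1 ≤ z.val ∧ z.val + k * d ≤ N) then l ^ 2 else 0) +
      (if ¬ (1 ≤ z.val ∧ z.val + k * d ≤ N) then (k : ℝ) ^ 2 else 0) := by
    intro z
    have hY := Y_nonneg f N k l hB d hd z
    unfold Y at hY ⊢
    by_cases hz : 1 ≤ z.val ∧ z.val + k * d ≤ N
    · rw [if_pos hz] at hY
      rw [if_pos hz, if_pos hz, if_neg (not_not.2 hz), add_zero, ← sq_abs (S _ _ _ _)]
      have h0 := abs_nonneg (S (g f N) k ((d : ZMod (N + 1))) z)
      nlinarith [mul_nonneg hY h0]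
    · rw [if_neg hz, if_neg hz, if_pos hz, zero_add, ← sq_abs, mul_zero, add_zero]
      exact pow_le_pow_left₀ (abs_nonneg _) (S_abs_le _ (g_sq_le f N hf) _ _ _) 2
  refine (sum_le_sum fun z _ => h1 z).trans ?_
  rw [sum_add_distrib, ← sum_filter, ← sum_filter, sum_const, sum_const, nsmul_eq_mul, nsmul_eq_mul]
  have h4 := card_good N (k * d)
  have h5 := card_bad N (k * d)
  have h6 : 0 ≤ l ^ 2 := sq_nonneg _
  have h7 : 0 ≤ (k : ℝ) ^ 2 := sq_nonneg _
  nlinarith [mul_le_mul_of_nonneg_right h4 h6, mul_le_mul_of_nonneg_right h5 h7]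

lemma min_sq_mono {y y' c w : ℝ} (hy : 0 ≤ y) (hy' : 0 ≤ y') (hc : 0 ≤ c) (hw : |w| ≤ max y y')
    (hw2 : |w| ≤ c) : w ^ 2 ≤ (min y c) ^ 2 + (min y' c) ^ 2 := by
  rw [← sq_abs w]
  rcases max_choice y y' with h | h
  · rw [h] at hw
    have : |w| ^ 2 ≤ (min y c) ^ 2 := pow_le_pow_left₀ (abs_nonneg _) (le_min hw hw2) 2
    have := sq_nonneg (min y' c)
    linarith
  · rw [h] at hw
    have : |w| ^ 2 ≤ (min y' c) ^ 2 := pow_le_pow_left₀ (abs_nonneg _) (le_min hw hw2) 2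
    have := sq_nonneg (min y c)
    linarith

lemma abs_diff_le {a b l c : ℝ} (ha : |a| ≤ l) (hb : |b| ≤ l) (hc : |b - a| ≤ c) (h : 2 * c ≤ l) :
    |b - a| ≤ max (l - |a|) (l - |b|) := by
  have hc0 : 0 ≤ c := (abs_nonneg _).trans hc
  by_cases hs : 0 ≤ a * b
  · have h1 : |b - a| = |(|b| - |a|)| := by
      rcases le_or_gt 0 a with h0 | h0
      · rcases le_or_gt 0 b with h1 | h1
        · rw [abs_of_nonneg h0, abs_of_nonneg h1]
        · have : a = 0 := by nlinarith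
          subst this
          simp
      · have : b ≤ 0 := by nlinarith
        rw [abs_of_neg h0, abs_of_nonpos this, abs_sub_comm]
        congr 1
        ring
    rw [h1]
    rcases le_total (|a|) (|b|) with h2 | h2
    · rw [abs_of_nonneg (by linarith)]
      exact le_trans (by linarith) (le_max_left _ _)
    · rw [abs_of_nonpos (by linarith)]
      exact le_trans (by linarith [abs_nonneg b]) (le_max_right _ _)
  · push Not at hs
    have h1 : |a| ≤ |b - a| := by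
      rcases le_or_gt 0 a with h0 | h0
      · have : b ≤ 0 := by nlinarith
        rw [abs_of_nonneg h0, abs_of_nonpos (by linarith)]
        linarith
      · have : 0 ≤ b := by nlinarith
        rw [abs_of_neg h0, abs_of_nonneg (by linarith)]
        linarith
    refine le_trans ?_ (le_max_left _ _)
    linarith

/-- increments are controlled by the deficits -/
lemma delta_le (f : ℕ → ℝ) (N k : ℕ) (l : ℝ) (hf : ∀ n, f n ^ 2 = 1)
    (hB : Bdd f N k l) (d : ℕ) (hd : 1 ≤ d) (m : ℕ) (hm : m ≤ k) (hml : 4 * (m : ℝ) ≤ l) :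
    ∑ z, (S (g f N) m ((d : ZMod (N + 1))) (z + k • (d : ZMod (N + 1))) -
        S (g f N) m ((d : ZMod (N + 1))) z) ^ 2 ≤
      2 * ∑ z, (min (Y f N k l d z) (2 * m)) ^ 2 + 4 * (m : ℝ) ^ 2 * ((2 * k * d : ℕ) + 1) := by
  classical
  have hsh : ∑ z, (min (Y f N k l d (z + m • (d : ZMod (N + 1)))) (2 * m)) ^ 2 =
      ∑ z, (min (Y f N k l d z) (2 * m)) ^ 2 :=
    Equiv.sum_comp (Equiv.addRight (m • (d : ZMod (N + 1))))
      (fun z => (min (Y f N k l d z) (2 * m)) ^ 2)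
  have hpt : ∀ z : ZMod (N + 1), (S (g f N) m ((d : ZMod (N + 1))) (z + k • (d : ZMod (N + 1))) -
        S (g f N) m ((d : ZMod (N + 1))) z) ^ 2 ≤
      ((min (Y f N k l d z) (2 * m)) ^ 2 +
        (min (Y f N k l d (z + m • (d : ZMod (N + 1)))) (2 * m)) ^ 2) +
      (if ¬ (1 ≤ z.val ∧ z.val + 2 * k * d ≤ N) then 4 * (m : ℝ) ^ 2 else 0) := by
    intro z
    have hm1 := S_abs_le _ (g_sq_le f N hf) m (d : ZMod (N + 1)) (z + k • (d : ZMod (N + 1)))
    have hm2 := S_abs_le _ (g_sq_le f N hf) m (d : ZMod (N + 1)) z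
    have hab : |S (g f N) m ((d : ZMod (N + 1))) (z + k • (d : ZMod (N + 1))) -
        S (g f N) m ((d : ZMod (N + 1))) z| ≤ 2 * m := by
      refine (abs_sub _ _).trans ?_
      unfold S
      linarith
    have hm0 : (0 : ℝ) ≤ 2 * m := by positivity
    by_cases hz : 1 ≤ z.val ∧ z.val + 2 * k * d ≤ N
    · rw [if_neg (not_not.2 hz), add_zero]
      have e1 : z + m • (d : ZMod (N + 1)) = z + ((m * d : ℕ) : ZMod (N + 1)) := by
        rw [nsmul_eq_mul]; push_cast; rfl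
      have hmd : m * d ≤ k * d := Nat.mul_le_mul_right d hm
      have hkd : 2 * k * d = k * d + k * d := by ring
      have hv : (z + m • (d : ZMod (N + 1))).val = z.val + m * d := by
        rw [e1]; exact val_shift N z _ (by omega)
      have hg1 : 1 ≤ z.val ∧ z.val + k * d ≤ N := ⟨hz.1, by omega⟩
      have hg2 : 1 ≤ (z + m • (d : ZMod (N + 1))).val ∧
          (z + m • (d : ZMod (N + 1))).val + k * d ≤ N := by
        rw [hv]; exact ⟨by omega, by omega⟩
      have hY1 := Y_nonneg f N k l hB d hd z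
      have hY2 := Y_nonneg f N k l hB d hd (z + m • (d : ZMod (N + 1)))
      refine min_sq_mono hY1 hY2 hm0 ?_ hab
      rw [S_shift] at hab ⊢
      unfold Y at hY1 hY2 ⊢
      rw [if_pos hg1] at hY1 ⊢
      rw [if_pos hg2] at hY2 ⊢
      exact abs_diff_le (by linarith) (by linarith) hab (by linarith)
    · rw [if_pos hz]
      have h1 : (S (g f N) m ((d : ZMod (N + 1))) (z + k • (d : ZMod (N + 1))) -
        S (g f N) m ((d : ZMod (N + 1))) z) ^ 2 ≤ (2 * (m : ℝ)) ^ 2 := by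
        rw [← sq_abs]
        exact pow_le_pow_left₀ (abs_nonneg _) hab 2
      nlinarith [sq_nonneg (min (Y f N k l d z) (2 * m)),
        sq_nonneg (min (Y f N k l d (z + m • (d : ZMod (N + 1)))) (2 * m))]
  refine (sum_le_sum fun z _ => hpt z).trans ?_
  rw [sum_add_distrib, sum_add_distrib, hsh, ← sum_filter, sum_const, nsmul_eq_mul]
  have h5 := card_bad N (2 * k * d)
  have h7 : 0 ≤ 4 * (m : ℝ) ^ 2 := by positivity
  nlinarith [mul_le_mul_of_nonneg_right h5 h7]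

end Pool.Agent.H9Disc
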