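import Pool.Agent.H9Disc.Core

open Finset

namespace Pool.Agent.H9Disc

lemma per_d (f : ℕ → ℝ) (N k I : ℕ) (l : ℝ) (hf : ∀ n, f n ^ 2 = 1) (hl : 0 ≤ l)
    (hB : Bdd f N k l) (hI : 2 ^ I ≤ k) (h4 : 4 * (2 : ℝ) ^ I ≤ l) (d : ℕ) (hd : 1 ≤ d) :
    ∑ z, S (g f N) k ((d : ZMod (N + 1))) z ^ 2 +
      l / 16 * ∑ i ∈ range (I + 1), (1 / 2 : ℝ) ^ i *
        ∑ z, (S (g f N) (2 ^ i) ((d : ZMod (N + 1))) (z + k • (d : ZMod (N + 1))) -
          S (g f N) (2 ^ i) ((d : ZMod (N + 1))) z) ^ 2 ≤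
    N * l ^ 2 + (k : ℝ) ^ 2 * ((k * d : ℕ) + 1) + l / 2 * 2 ^ I * ((2 * k * d : ℕ) + 1) := by
  have h1 := sum_sq_le' f N k l hf hl hB d hd
  have h2 : ∑ i ∈ range (I + 1), (1 / 2 : ℝ) ^ i *
      ∑ z, (min (Y f N k l d z) (2 ^ (i + 1))) ^ 2 ≤ 8 * ∑ z, Y f N k l d z := by
    have : ∀ z ∈ (univ : Finset (ZMod (N + 1))), ∑ i ∈ range (I + 1), (1 / 2 : ℝ) ^ i *
        (min (Y f N k l d z) (2 ^ (i + 1))) ^ 2 ≤ 8 * Y f N k l d z :=
      fun z _ => phi_le I _ (Y_nonneg f N k l hB d hd z)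
    have h3 := sum_le_sum this
    rw [sum_comm, ← mul_sum] at h3
    simp_rw [mul_sum]
    simpa only [mul_sum] using h3
  have h3 : ∀ i ∈ range (I + 1), (1 / 2 : ℝ) ^ i *
        ∑ z, (S (g f N) (2 ^ i) ((d : ZMod (N + 1))) (z + k • (d : ZMod (N + 1))) -
          S (g f N) (2 ^ i) ((d : ZMod (N + 1))) z) ^ 2 ≤
      2 * ((1 / 2 : ℝ) ^ i * ∑ z, (min (Y f N k l d z) (2 ^ (i + 1))) ^ 2) +
        4 * 2 ^ i * ((2 * k * d : ℕ) + 1) := by
    intro i hi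
    rw [mem_range] at hi
    have hle : 2 ^ i ≤ 2 ^ I := Nat.pow_le_pow_right (by norm_num) (by omega)
    have hle' : (2 : ℝ) ^ i ≤ 2 ^ I := by exact_mod_cast hle
    have h5 := delta_le f N k l hf hB d hd (2 ^ i) (hle.trans hI) (by push_cast; linarith)
    have e1 : (2 * ((2 ^ i : ℕ) : ℝ)) = 2 ^ (i + 1) := by push_cast; ring
    rw [e1] at h5
    have h6 := mul_le_mul_of_nonneg_left h5 (by positivity : (0 : ℝ) ≤ (1 / 2) ^ i)
    refine h6.trans (le_of_eq ?_)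
    have e2 : (1 / 2 : ℝ) ^ i * 2 ^ i = 1 := by
      rw [← mul_pow]; norm_num
    push_cast
    have e3 : (1 / 2 : ℝ) ^ i * (4 * ((2 : ℝ) ^ i) ^ 2 * (2 * k * d + 1)) =
        ((1 / 2 : ℝ) ^ i * 2 ^ i) * (4 * 2 ^ i * (2 * k * d + 1)) := by ring
    rw [mul_add, e3, e2]
    ring
  have h4' := sum_le_sum h3
  rw [sum_add_distrib, ← mul_sum] at h4'
  have h7 : ∑ i ∈ range (I + 1), 4 * (2 : ℝ) ^ i * ((2 * k * d : ℕ) + 1) ≤
      8 * 2 ^ I * ((2 * k * d : ℕ) + 1) := by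
    rw [← sum_mul, ← mul_sum]
    have h8 : ∑ i ∈ range (I + 1), (2 : ℝ) ^ i ≤ 2 * 2 ^ I := by
      rw [geom_sum_eq (by norm_num)]
      rw [pow_succ]
      have : (0 : ℝ) < 2 ^ I := by positivity
      norm_num
      linarith
    have h9 : (0 : ℝ) ≤ (2 * k * d : ℕ) + 1 := by positivity
    nlinarith
  have h10 : l / 16 * ∑ i ∈ range (I + 1), (1 / 2 : ℝ) ^ i *
        ∑ z, (S (g f N) (2 ^ i) ((d : ZMod (N + 1))) (z + k • (d : ZMod (N + 1))) -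
          S (g f N) (2 ^ i) ((d : ZMod (N + 1))) z) ^ 2 ≤
      l * ∑ z, Y f N k l d z + l / 2 * 2 ^ I * ((2 * k * d : ℕ) + 1) := by
    have h11 : 0 ≤ l / 16 := by positivity
    have h12 := mul_le_mul_of_nonneg_left (h4'.trans (add_le_add (mul_le_mul_of_nonneg_left h2
      (by norm_num : (0 : ℝ) ≤ 2)) h7)) h11
    refine h12.trans (le_of_eq ?_)
    ring
  linarith

theorem main_ineq (f : ℕ → ℝ) (k I : ℕ) (l : ℝ) (hf : ∀ n, f n ^ 2 = 1) (hk : 2 ≤ k)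
    (hB : Bdd f (4 * k ^ 6) k l) (h4 : 4 * (2 : ℝ) ^ I ≤ l) (hlk : l ≤ k) (hI : 2 ^ I ≤ k)
    (hρ : 0 ≤ l ^ 2 - k + 2)
    (hR : (2 : ℝ) ^ I * (1 / k ^ 2 + (l ^ 2 - k + 2) / (2 * (k - 1))) ≤ 1 / 4) :
    3 / 32 * l * (I + 1) ≤ l ^ 2 - k + 3 := by
  have hl : 0 ≤ l := le_trans (by positivity) h4
  have hk1 : (2 : ℝ) ≤ k := by exact_mod_cast hk
  set N := 4 * k ^ 6 with hN
  have hNr : (N : ℝ) = 4 * (k : ℝ) ^ 6 := by rw [hN]; push_cast; ring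
  set D := k ^ 2 + 1 with hD
  have hDr : (D : ℝ) = (k : ℝ) ^ 2 + 1 := by rw [hD]; push_cast; ring
  have hT : T D = ((k : ℝ) ^ 2 + 1) * (k : ℝ) ^ 2 / 2 := by unfold T; rw [hDr]; ring
  have hTpos : 0 < T D := by rw [hT]; positivity
  have hNpos : (0 : ℝ) < N := by rw [hNr]; positivity
  have hA : A (g f N) 0 = N := A_g_zero f N hf
  have hA0 : 0 ≤ A (g f N) 0 := by rw [hA]; positivity
  have hDN : (D : ℝ) * A (g f N) 0 / 2 = T D * N / (k : ℝ) ^ 2 := by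
    rw [hA, hT, hDr]; field_simp
  -- bound for r
  have hr : ∀ h, 1 ≤ h → h ≤ 2 * k →
      r (g f N) D (h • (1 : ZMod (N + 1))) ≤ T D * N * ((l ^ 2 - k + 2) / (2 * (k - 1))) := by
    intro h hh1 hh2
    have h1 := r_le (g f N) D k (h • (1 : ZMod (N + 1))) hA0 (by omega)
    have h2 : avg D (fun d => ∑ a, S (g f N) k (d • h • (1 : ZMod (N + 1))) a ^ 2) ≤
        avg D (fun _ => (N : ℝ) * (l ^ 2 + 1)) := by
      apply avg_le
      intro d hd1 hdD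
      have e1 : d • h • (1 : ZMod (N + 1)) = ((d * h : ℕ) : ZMod (N + 1)) := by
        rw [nsmul_one, nsmul_eq_mul]; push_cast; rfl
      rw [e1]
      have h3 := sum_sq_le f N k l hf hl hB (d * h) (Nat.mul_pos hd1 hh1)
      refine h3.trans ?_
      have hd2 : d ≤ k ^ 2 := by omega
      have h5 : k * (d * h) ≤ 2 * k ^ 4 := by
        calc k * (d * h) ≤ k * (k ^ 2 * (2 * k)) :=
              Nat.mul_le_mul_left _ (Nat.mul_le_mul hd2 hh2)
          _ = 2 * k ^ 4 := by ring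
      have h6 : ((k * (d * h) : ℕ) : ℝ) ≤ 2 * (k : ℝ) ^ 4 := by exact_mod_cast h5
      have h7 : (k : ℝ) ^ 2 * ((k * (d * h) : ℕ) + 1) ≤ (k : ℝ) ^ 2 * (2 * (k : ℝ) ^ 4 + 1) :=
        mul_le_mul_of_nonneg_left (by linarith) (by positivity)
      have h8 : (k : ℝ) ^ 2 * (2 * (k : ℝ) ^ 4 + 1) ≤ N := by
        rw [hNr]
        have : (1 : ℝ) ≤ (k : ℝ) ^ 4 := one_le_pow₀ (by linarith)
        have h9 : (0 : ℝ) ≤ (k : ℝ) ^ 2 := by positivity
        nlinarith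
      nlinarith
    rw [avg_const] at h2
    rw [hDN, hA] at h1
    have h10 : T D * N / (k : ℝ) ^ 2 * (k : ℝ) ^ 2 = T D * N := by field_simp
    have h11 : 2 * ((k : ℝ) - 1) * r (g f N) D (h • (1 : ZMod (N + 1))) ≤
        T D * N * (l ^ 2 - k + 2) := by nlinarith
    have h12 : (0 : ℝ) < 2 * (k - 1) := by linarith
    rw [mul_div_assoc', le_div_iff₀ h12]
    linarith
  -- average the inequality per_d
  have hav : avg D (fun d => ∑ z, S (g f N) k ((d : ZMod (N + 1))) z ^ 2 +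
      l / 16 * ∑ i ∈ range (I + 1), (1 / 2 : ℝ) ^ i *
        ∑ z, (S (g f N) (2 ^ i) ((d : ZMod (N + 1))) (z + k • (d : ZMod (N + 1))) -
          S (g f N) (2 ^ i) ((d : ZMod (N + 1))) z) ^ 2) ≤
      avg D (fun _ => (N : ℝ) * (l ^ 2 + 2)) := by
    apply avg_le
    intro d hd1 hdD
    refine (per_d f N k I l hf hl hB hI h4 d hd1).trans ?_
    have hd2 : d ≤ k ^ 2 := by omega
    have h5 : k * d ≤ k ^ 3 := by
      calc k * d ≤ k * k ^ 2 := Nat.mul_le_mul_left _ hd2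
        _ = k ^ 3 := by ring
    have h6 : ((k * d : ℕ) : ℝ) ≤ (k : ℝ) ^ 3 := by exact_mod_cast h5
    have h6' : ((2 * k * d : ℕ) : ℝ) ≤ 2 * (k : ℝ) ^ 3 := by
      have : 2 * k * d ≤ 2 * k ^ 3 := by rw [mul_assoc]; omega
      exact_mod_cast this
    have h7 : (k : ℝ) ^ 2 * ((k * d : ℕ) + 1) ≤ (k : ℝ) ^ 2 * ((k : ℝ) ^ 3 + 1) :=
      mul_le_mul_of_nonneg_left (by linarith) (by positivity)
    have hk3 : (1 : ℝ) ≤ (k : ℝ) ^ 3 := one_le_pow₀ (by linarith)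
    have hk4 : (1 : ℝ) ≤ (k : ℝ) ^ 4 := one_le_pow₀ (by linarith)
    have h8 : (k : ℝ) ^ 2 * ((k : ℝ) ^ 3 + 1) ≤ N := by
      rw [hNr]
      have h9 : (0 : ℝ) ≤ (k : ℝ) ^ 2 := by positivity
      have h10 : (k : ℝ) ^ 3 ≤ (k : ℝ) ^ 4 := pow_le_pow_right₀ (by linarith) (by norm_num)
      nlinarith
    have hIr : (2 : ℝ) ^ I ≤ k := by exact_mod_cast hI
    have h11 : l / 2 * 2 ^ I ≤ (k : ℝ) * k := by
      have : (0 : ℝ) < 2 ^ I := by positivity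
      calc l / 2 * 2 ^ I ≤ (k : ℝ) * 2 ^ I := by
            apply mul_le_mul_of_nonneg_right _ this.le
            linarith
        _ ≤ (k : ℝ) * k := mul_le_mul_of_nonneg_left hIr (by linarith)
    have h12 : l / 2 * 2 ^ I * ((2 * k * d : ℕ) + 1) ≤ N := by
      calc l / 2 * 2 ^ I * ((2 * k * d : ℕ) + 1) ≤ ((k : ℝ) * k) * (2 * (k : ℝ) ^ 3 + 1) := by
            apply mul_le_mul h11 (by linarith) (by positivity) (by positivity)
        _ ≤ N := by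
            rw [hNr]
            have h9 : (0 : ℝ) ≤ (k : ℝ) ^ 2 := by positivity
            have h10 : (k : ℝ) ^ 3 ≤ (k : ℝ) ^ 4 := pow_le_pow_right₀ (by linarith) (by norm_num)
            nlinarith
    linarith
  rw [avg_const, avg_add, avg_mul, avg_sum (range (I + 1))] at hav
  -- lower bounds
  have hlow1 : T D * N * (k - 1) ≤ avg D (fun d => ∑ z, S (g f N) k ((d : ZMod (N + 1))) z ^ 2) := by
    have h1 := avg_sq_ge (g f N) D k (1 : ZMod (N + 1)) hA0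
    simp only [nsmul_one] at h1
    rw [hDN, hA] at h1
    have h10 : (k : ℝ) ^ 2 * (T D * N / (k : ℝ) ^ 2) = T D * N := by field_simp
    rw [h10] at h1
    linarith
  have hlow2 : ∀ i ∈ range (I + 1), T D * N * (3 / 2) ≤ avg D (fun d => (1 / 2 : ℝ) ^ i *
        ∑ z, (S (g f N) (2 ^ i) ((d : ZMod (N + 1))) (z + k • (d : ZMod (N + 1))) -
          S (g f N) (2 ^ i) ((d : ZMod (N + 1))) z) ^ 2) := by
    intro i hi
    rw [mem_range] at hi
    have hle : 2 ^ i ≤ 2 ^ I := Nat.pow_le_pow_right (by norm_num) (by omega)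
    have hle' : (2 : ℝ) ^ i ≤ 2 ^ I := by exact_mod_cast hle
    rw [avg_mul]
    have h1 := avg_delta_ge (g f N) D (2 ^ i) k (1 : ZMod (N + 1)) hA0 (hle.trans hI) _ hr
    have e1 : ∀ d : ℕ, d • (k • (1 : ZMod (N + 1))) = k • (d : ZMod (N + 1)) := by
      intro d
      rw [smul_comm, nsmul_one]
    simp only [e1] at h1
    simp only [nsmul_one] at h1
    rw [hDN, hA] at h1
    have hpos : (0 : ℝ) < 2 ^ i := by positivity
    have e2 : (1 / 2 : ℝ) ^ i * 2 ^ i = 1 := by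
      rw [← mul_pow]; norm_num
    have h2 := mul_le_mul_of_nonneg_left h1 (by positivity : (0 : ℝ) ≤ (1 / 2) ^ i)
    refine le_trans ?_ h2
    push_cast
    have e3 : (1 / 2 : ℝ) ^ i * (2 * ((2 : ℝ) ^ i * (T D * N) - ((2 : ℝ) ^ i) ^ 2 *
        (T D * N / (k : ℝ) ^ 2)) - 2 * ((2 : ℝ) ^ i) ^ 2 *
        (T D * N * ((l ^ 2 - k + 2) / (2 * (k - 1))))) =
        ((1 / 2 : ℝ) ^ i * 2 ^ i) * (T D * N) *
        (2 - 2 * ((2 : ℝ) ^ i * (1 / (k : ℝ) ^ 2 + (l ^ 2 - k + 2) / (2 * (k - 1))))) := by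
      ring
    rw [e3, e2, one_mul]
    have hq : 0 ≤ 1 / (k : ℝ) ^ 2 + (l ^ 2 - k + 2) / (2 * (k - 1)) := by
      have : (0 : ℝ) < 2 * (k - 1) := by linarith
      positivity
    have h5 : (2 : ℝ) ^ i * (1 / (k : ℝ) ^ 2 + (l ^ 2 - k + 2) / (2 * (k - 1))) ≤ 1 / 4 :=
      (mul_le_mul_of_nonneg_right hle' hq).trans hR
    apply mul_le_mul_of_nonneg_left _ (by positivity)
    linarith
  have hlow3 := sum_le_sum hlow2
  rw [sum_const, card_range, nsmul_eq_mul] at hlow3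
  have h13 : T D * N * (k - 1) + l / 16 * (((I + 1 : ℕ) : ℝ) * (T D * N * (3 / 2))) ≤
      T D * (N * (l ^ 2 + 2)) := by
    refine le_trans (add_le_add hlow1 (mul_le_mul_of_nonneg_left hlow3 (by positivity))) hav
  push_cast at h13
  have h14 : T D * N * (k - 1 + 3 / 32 * l * (I + 1)) ≤ T D * N * (l ^ 2 + 2) := by
    refine le_trans (le_of_eq ?_) (h13.trans (le_of_eq ?_)) <;> ring
  have h15 := le_of_mul_le_mul_left h14 (by positivity)
  linarith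

end Pool.Agent.H9Disc
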